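import Pool.Agent.Q62.AnisoCmp

set_option autoImplicit false

/-!
# The regular polygon does not minimise the anisotropic Cheeger functional of the disc

For every even `n ≥ 22` the regular `n`-gon `P*_n` circumscribed about the unit disc `B` is not a
minimiser of `𝒥_B` among the origin-symmetric convex polygons with exactly `n` sides.

Idea: the field `x ↦ x` gives `h_K(B) ≥ 2` for every `K` that contains `B`, and the polar set of
`P*_n` contains the disc of radius `cos (π / n)`, so `𝒥_B[P*_n] ≥ 2 √π cos (π / n) > 3.5085`. The
competitor is an `n`-gon close to a square; its value is less than `3.5075`, by the test set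
`B ∩ (-12/13, 12/13)²`.
-/

namespace Pool.Agent.Results.MP_4eea03_an.RegularNotOptimal

open Pool.Agent.Q62.Aniso

theorem result (n : ℕ) (hn : Even n) (h22 : 22 ≤ n) :
    ∃ P : Set (EuclideanSpace ℝ (Fin 2)), IsAnisotropy P ∧ IsPolygon n P ∧
      J (Metric.ball 0 1) P < J (Metric.ball 0 1) (regularPolygon n) := by
  obtain ⟨m, hm⟩ := hn
  obtain rfl : n = 2 * m := by omega
  exact regular_not_optimal (by omega)

end Pool.Agent.Results.MP_4eea03_an.RegularNotOptimal
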